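import Mathlib
import Pool.Agent.TH869.SQ.Cs

/-!
# The Frobenius classes of almost all members of a one-parameter family of abelian varieties

The abelian varieties are the products `A_n = Jac(C_{1,n}) × ... × Jac(C_{r,n})` of the Jacobians of
the hyperelliptic curves `C_{i,n} : y² = F_i(x, n)`, where `F_i ∈ ℤ[T][x]` is monic of odd degree
`2 g_i + 1`, and `n` runs through the integers `0 ≤ n ≤ N`.
-/

set_option autoImplicit false

namespace Pool.Agent.Results.MP_c481b3_nt.OneParameterFamilies

open Finset Polynomial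

/-- The member `F(x, n)` of the family `F ∈ ℤ[T][x]`. -/
noncomputable def member (F : ℤ[X][X]) (n : ℤ) : ℤ[X] := F.map (evalRingHom n)

/-- The number of the solutions `(x, y)` of `y² = f(x)` in the field with `p ^ j` elements. -/
noncomputable def points (f : ℤ[X]) (p j : ℕ) : ℕ :=
  if h : p.Prime then
    haveI : Fact p.Prime := ⟨h⟩
    Nat.card {P : GaloisField p j × GaloisField p j //
      P.2 ^ 2 = (f.map (Int.castRingHom (GaloisField p j))).eval P.1}
  else 0

/-- `p` is odd and `f` is separable modulo `p`; for monic `f` of degree `2 g + 1` the curve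
`y² = f(x)` then has good reduction at `p`. -/
def Good (f : ℤ[X]) (p : ℕ) : Prop := p ≠ 2 ∧ (f.map (Int.castRingHom (ZMod p))).Separable

open Classical in
/-- The trace of the `j`-th power of the normalised Frobenius at `p`, for `f` monic of odd degree:
`(p ^ j + 1 - #C(F_{p ^ j})) / p ^ (j / 2)`, where `#C(F_{p ^ j}) = points f p j + 1` (there is one
point at infinity); and `0` if `p` is not good. For a curve of genus `g` the numbers with
`j = 1, ..., g` determine the normalised Euler factor at `p`, that is, the class in `USp(2g)`. -/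
noncomputable def trace (f : ℤ[X]) (p j : ℕ) : ℝ :=
  if Good f p then ((p : ℝ) ^ j + 1 - (points f p j + 1)) / Real.sqrt p ^ j else 0

/-- The Frobenius class of `A_n` at `p` is in the box `∏ I i j`: for all `i` and `1 ≤ j ≤ g_i` the
trace of the `j`-th power of the normalised Frobenius of `C_{i,n}` at `p` is in `I i (j - 1)`. -/
def InBox {r : ℕ} {g : Fin r → ℕ} (F : Fin r → ℤ[X][X]) (I : (i : Fin r) → Fin (g i) → Set ℝ)
    (n : ℤ) (p : ℕ) : Prop :=
  ∀ (i : Fin r) (j : Fin (g i)), trace (member (F i) n) p (j + 1) ∈ I i j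

open Classical in
/-- The number of the `k < K` such that the Frobenius class of `A_n` at the prime `p_k` is in the box
(`p_0 = 2, p_1 = 3, ...` are the primes). -/
noncomputable def count {r : ℕ} {g : Fin r → ℕ} (F : Fin r → ℤ[X][X])
    (I : (i : Fin r) → Fin (g i) → Set ℝ) (n : ℤ) (K : ℕ) : ℕ :=
  ((range K).filter (fun k => InBox F I n (Nat.nth Nat.Prime k))).card

open Classical in
/-- The proportion of the residues `t` modulo `p` for which the Frobenius class of `A_t` at `p` is in
the box. -/
noncomputable def proportion {r : ℕ} {g : Fin r → ℕ} (F : Fin r → ℤ[X][X])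
    (I : (i : Fin r) → Fin (g i) → Set ℝ) (p : ℕ) : ℝ :=
  ((range p).filter (fun t : ℕ => InBox F I (t : ℤ) p)).card / p

theorem member_map (F : ℤ[X][X]) (p : ℕ) (n : ℤ) (R : Type) [CommRing R] [CharP R p] :
    (member F (n + p)).map (Int.castRingHom R) = (member F n).map (Int.castRingHom R) := by
  unfold member
  rw [Polynomial.map_map, Polynomial.map_map]
  congr 1
  apply Polynomial.ringHom_ext'
  · apply RingHom.ext_int
  · simp

theorem points_per (F : ℤ[X][X]) (p j : ℕ) (n : ℤ) :
    points (member F (n + p)) p j = points (member F n) p j := by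
  unfold points
  split_ifs with h
  · have : Fact p.Prime := ⟨h⟩
    rw [member_map F p n (GaloisField p j)]
  · rfl

theorem trace_per (F : ℤ[X][X]) (p j : ℕ) (n : ℤ) :
    trace (member F (n + p)) p j = trace (member F n) p j := by
  unfold trace Good
  rw [points_per, member_map F p n (ZMod p)]

/-- **Result.** For every dimension `d` and every `δ > 0` there are `κ > 0` and `C` such that the
following holds for all finite systems of families `F_i ∈ ℤ[T][x]`, monic in `x` of degree
`2 g_i + 1`, with `g_1 + ... + g_r = d`, and all `N ≥ 1`. For all but at most `C N ^ (1 - κ)` of the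
integers `0 ≤ n ≤ N`, for every `K ≤ N ^ κ` and every box (product of intervals), the number of the
`k < K` for which the Frobenius class of the abelian variety `A_n = ∏ Jac(y² = F_i(x, n))` at the
prime `p_k` is in the box differs from the sum over `k < K` of the proportion of the members of the
family over the field with `p_k` elements whose Frobenius class is in the box by at most
`C K ^ (1 / 2 + δ) (1 + log N) ^ (1 / 2)`. -/
theorem result (d : ℕ) (δ : ℝ) (hδ : 0 < δ) :
    ∃ κ C : ℝ, 0 < κ ∧ 0 < C ∧ ∀ (r : ℕ) (g : Fin r → ℕ), ∑ i, g i = d →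
      ∀ F : Fin r → ℤ[X][X], (∀ i, (F i).Monic ∧ (F i).natDegree = 2 * g i + 1) →
      ∀ N : ℕ, 1 ≤ N → ∃ E : Finset ℕ, (E.card : ℝ) ≤ C * (N : ℝ) ^ (1 - κ) ∧
        ∀ n : ℕ, n ≤ N → n ∉ E → ∀ K : ℕ, (K : ℝ) ≤ (N : ℝ) ^ κ →
          ∀ I : (i : Fin r) → Fin (g i) → Set ℝ, (∀ i j, (I i j).OrdConnected) →
            |(count F I n K : ℝ) - ∑ k ∈ range K, proportion F I (Nat.nth Nat.Prime k)| ≤
              C * ((K : ℝ) ^ (1 / 2 + δ) * √(1 + Real.log N)) := by
  classical
  obtain ⟨κ, C, h1, _, h3, H⟩ := Pool.Agent.TH869.SQ.boxes 1 2 4 d le_rfl δ hδ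
  refine ⟨κ, C, h1, by linarith, ?_⟩
  intro r g hg F _ N hN
  have hcard : Fintype.card (Σ i : Fin r, Fin (g i)) = d := by
    rw [Fintype.card_sigma, ← hg]
    simp
  set e : Fin d ≃ (Σ i : Fin r, Fin (g i)) := (Fintype.equivFinOfCardEq hcard).symm with he
  obtain ⟨E, hE1, hE2⟩ := H (fun k => Nat.nth Nat.Prime k) (fun k => ⟨(Nat.prime_nth_prime k).pos, by
      exact Pool.Agent.TH862.EA.nth_prime_le k⟩) (by
      intro j k hjk
      apply (Nat.coprime_primes (Nat.prime_nth_prime j) (Nat.prime_nth_prime k)).mpr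
      intro h
      have := Nat.nth_injective Nat.infinite_setOfPred_prime h
      omega) (fun k n l => trace (member (F (e l).1) (n : ℤ)) (Nat.nth Nat.Prime k) ((e l).2 + 1)) (by
      intro k n
      funext l
      have h5 : ((n + Nat.nth Nat.Prime k : ℕ) : ℤ) = (n : ℤ) + (Nat.nth Nat.Prime k : ℕ) := by
        push_cast
        rfl
      rw [h5]
      exact trace_per _ _ _ _) N hN
  refine ⟨E, hE1, ?_⟩
  intro n hn hnE K hK I hI
  have h := hE2 n hn hnE K hK (fun l => I (e l).1 (e l).2) (fun l => hI _ _)
  rw [sum_sub_distrib] at h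
  have hbox : ∀ (k : ℕ) (t : ℕ), Pool.Agent.TH869.SQ.ind (fun l => I (e l).1 (e l).2)
      (fun l => trace (member (F (e l).1) (t : ℤ)) (Nat.nth Nat.Prime k) ((e l).2 + 1)) =
      if InBox F I (t : ℤ) (Nat.nth Nat.Prime k) then 1 else 0 := by
    intro k t
    unfold Pool.Agent.TH869.SQ.ind
    congr 1
    apply propext
    constructor
    · intro h5 i j
      have h6 : ∀ s : (Σ i : Fin r, Fin (g i)),
          trace (member (F s.1) (t : ℤ)) (Nat.nth Nat.Prime k) (s.2 + 1) ∈ I s.1 s.2 := by
        intro s
        obtain ⟨l, rfl⟩ := e.surjective s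
        exact h5 l
      exact h6 ⟨i, j⟩
    · intro h5 l
      exact h5 _ _
  have e1 : (count F I n K : ℝ) = ∑ k ∈ range K, Pool.Agent.TH869.SQ.ind
      (fun l => I (e l).1 (e l).2)
      (fun l => trace (member (F (e l).1) (n : ℤ)) (Nat.nth Nat.Prime k) ((e l).2 + 1)) := by
    unfold count
    rw [sum_congr rfl (fun k _ => hbox k n), sum_boole]
  have e2 : ∑ k ∈ range K, proportion F I (Nat.nth Nat.Prime k) = ∑ k ∈ range K,
      Pool.Agent.TH869.SQ.mean (Nat.nth Nat.Prime k) (fun t => Pool.Agent.TH869.SQ.ind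
        (fun l => I (e l).1 (e l).2)
        (fun l => trace (member (F (e l).1) (t : ℤ)) (Nat.nth Nat.Prime k) ((e l).2 + 1))) := by
    refine sum_congr rfl fun k _ => ?_
    unfold proportion Pool.Agent.TH869.SQ.mean
    rw [sum_congr rfl (fun t _ => hbox k t), sum_boole]
  rw [e1, e2]
  exact h

end Pool.Agent.Results.MP_c481b3_nt.OneParameterFamilies
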